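import Pool.Agent.H29.FX.Targets

/-!
Row FLO of tfx_modules: the flow of one derivation is an evaluation.
-/

set_option autoImplicit false

open Finset MvPolynomial

namespace Pool.Agent.H27.TFX

open Pool.Agent.H29.FX

theorem flo_add {n : ℕ} (D : Dr n) (m : ℕ) (f g : Pl n) :
    (fun g => D g)^[m] (f + g) = (fun g => D g)^[m] f + (fun g => D g)^[m] g := by
  induction m with
  | zero => rfl
  | succ k ih =>
    rw [Function.iterate_succ_apply', ih, Function.iterate_succ_apply',
      Function.iterate_succ_apply']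
    exact map_add D _ _

theorem flo_zero {n : ℕ} (D : Dr n) (m : ℕ) : (fun g => D g)^[m] (0 : Pl n) = 0 := by
  induction m with
  | zero => rfl
  | succ k ih =>
    rw [Function.iterate_succ_apply', ih]
    exact map_zero D

theorem flo_C {n : ℕ} (D : Dr n) (m : ℕ) (hm : 1 ≤ m) (a : ℤ) :
    (fun g => D g)^[m] (C a : Pl n) = 0 := by
  obtain ⟨k, rfl⟩ : ∃ k, m = k + 1 := ⟨m - 1, by omega⟩
  rw [Function.iterate_succ_apply]
  have h : D (C a : Pl n) = 0 := by
    rw [← MvPolynomial.algebraMap_eq]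
    exact D.map_algebraMap a
  rw [h]
  exact flo_zero D k

/-- the Leibniz rule for the iterates -/
theorem flo_leib {n : ℕ} (D : Dr n) (m : ℕ) (f g : Pl n) :
    (fun g => D g)^[m] (f * g) = ∑ ij ∈ antidiagonal m,
      m.choose ij.1 • ((fun g => D g)^[ij.1] f * (fun g => D g)^[ij.2] g) := by
  induction m with
  | zero => simp
  | succ m ih =>
    rw [sum_antidiagonal_choose_succ_nsmul (M := Pl n)
      (fun i j => (fun g => D g)^[i] f * (fun g => D g)^[j] g) m,
      Function.iterate_succ_apply', ih]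
    have h1 : D (∑ ij ∈ antidiagonal m,
        m.choose ij.1 • ((fun g => D g)^[ij.1] f * (fun g => D g)^[ij.2] g)) =
        ∑ ij ∈ antidiagonal m, (m.choose ij.1 • ((fun g => D g)^[ij.1] f *
          (fun g => D g)^[ij.2 + 1] g) + m.choose ij.1 • ((fun g => D g)^[ij.1 + 1] f *
          (fun g => D g)^[ij.2] g)) := by
      rw [map_sum]
      refine Finset.sum_congr rfl fun ij _ => ?_
      rw [map_nsmul, Derivation.leibniz, Function.iterate_succ_apply',
        Function.iterate_succ_apply', nsmul_add, smul_eq_mul, smul_eq_mul,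
        mul_comm ((fun g => D g)^[ij.2] g)]
    refine h1.trans ?_
    rw [Finset.sum_add_distrib, add_right_inj]
    refine Finset.sum_congr rfl fun ij hij => ?_
    rw [m.choose_symm_of_eq_add (HasAntidiagonal.mem_antidiagonal.mp hij).symm]

/-- the sum over a square is a sum over antidiagonals -/
theorem flo_sq {R : Type} [CommRing R] (s : ℕ) (F : ℕ → ℕ → R)
    (hF : ∀ i j, s ≤ i + j → F i j = 0) :
    ∑ i ∈ range s, ∑ j ∈ range s, F i j = ∑ m ∈ range s, ∑ x ∈ antidiagonal m, F x.1 x.2 := by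
  have h1 : ∑ i ∈ range s, ∑ j ∈ range s, F i j = ∑ x ∈ range s ×ˢ range s, F x.1 x.2 := by
    rw [Finset.sum_product]
  have h2 : ∑ x ∈ range s ×ˢ range s, F x.1 x.2 =
      ∑ x ∈ (range s ×ˢ range s).filter (fun x => x.1 + x.2 < s), F x.1 x.2 := by
    symm
    refine Finset.sum_filter_of_ne fun x _ hx => ?_
    by_contra h
    exact hx (hF _ _ (not_lt.mp h))
  rw [h1, h2, ← Finset.sum_fiberwise_of_maps_to (g := fun x : ℕ × ℕ => x.1 + x.2)
    (t := range s)]
  · refine Finset.sum_congr rfl fun m hm => ?_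
    refine Finset.sum_congr ?_ fun _ _ => rfl
    ext ⟨i, j⟩
    have hm' := mem_range.mp hm
    simp only [mem_filter, mem_product, mem_range, HasAntidiagonal.mem_antidiagonal]
    omega
  · intro x hx
    exact mem_range.mpr (mem_filter.mp hx).2

theorem flo_fact (p s m : ℕ) (hp : p.Prime) (hm : m < p) :
    ((m.factorial : ℕ) : ZMod (p ^ s)) * iv p s m = 1 := by
  have h : Nat.Coprime m.factorial (p ^ s) := by
    refine Nat.Coprime.pow_right _ ?_
    rw [Nat.coprime_comm, Nat.Prime.coprime_iff_not_dvd hp, Nat.Prime.dvd_factorial hp]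
    omega
  exact ZMod.coe_mul_inv_eq_one _ h

theorem flo_choose (p s i j : ℕ) (hp : p.Prime) (hs : s ≤ p) (hij : i + j < s) :
    iv p s (i + j) * (((i + j).choose i : ℕ) : ZMod (p ^ s)) = iv p s i * iv p s j := by
  have h1 := flo_fact p s (i + j) hp (by omega)
  have h2 := flo_fact p s i hp (by omega)
  have h3 := flo_fact p s j hp (by omega)
  have h4 : (((i + j).choose i : ℕ) : ZMod (p ^ s)) * ((i.factorial : ℕ) : ZMod (p ^ s)) *
      ((j.factorial : ℕ) : ZMod (p ^ s)) = (((i + j).factorial : ℕ) : ZMod (p ^ s)) := by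
    rw [← Nat.cast_mul, ← Nat.cast_mul, Nat.choose_symm_add,
      Nat.add_choose_mul_factorial_mul_factorial i j]
  calc iv p s (i + j) * (((i + j).choose i : ℕ) : ZMod (p ^ s))
      = iv p s (i + j) * (((i + j).choose i : ℕ) : ZMod (p ^ s)) *
        (((i.factorial : ℕ) : ZMod (p ^ s)) * iv p s i) *
        (((j.factorial : ℕ) : ZMod (p ^ s)) * iv p s j) := by rw [h2, h3]; ring
    _ = ((((i + j).choose i : ℕ) : ZMod (p ^ s)) * ((i.factorial : ℕ) : ZMod (p ^ s)) *
      ((j.factorial : ℕ) : ZMod (p ^ s))) * iv p s (i + j) * (iv p s i * iv p s j) := by ring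
    _ = iv p s i * iv p s j := by rw [h4, h1, one_mul]

/-- the Taylor sum of one flow -/
noncomputable def floE {n : ℕ} (p s : ℕ) (D : Dr n) (t : ZMod (p ^ s)) (x : Fin n → ZMod (p ^ s))
    (f : Pl n) : ZMod (p ^ s) :=
  ∑ m ∈ range s, t ^ m * iv p s m * aeval x ((fun g => D g)^[m] f)

theorem flo_E_add {n : ℕ} (p s : ℕ) (D : Dr n) (t : ZMod (p ^ s)) (x : Fin n → ZMod (p ^ s))
    (f g : Pl n) : floE p s D t x (f + g) = floE p s D t x f + floE p s D t x g := by
  unfold floE
  rw [← Finset.sum_add_distrib]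
  refine Finset.sum_congr rfl fun m _ => ?_
  rw [flo_add, map_add, mul_add]

theorem flo_E_C {n : ℕ} (p s : ℕ) (D : Dr n) (t : ZMod (p ^ s)) (x : Fin n → ZMod (p ^ s))
    (a : ℤ) : floE p s D t x (C a) = aeval x (C a : Pl n) := by
  rcases Nat.eq_zero_or_pos s with hs | hs
  · subst hs
    have : Subsingleton (ZMod (p ^ 0)) := by
      rw [pow_zero]
      infer_instance
    exact Subsingleton.elim _ _
  · unfold floE
    rw [Finset.sum_eq_single 0]
    · simp [iv]
    · intro m _ hm
      rw [flo_C D m (by omega) a, map_zero, mul_zero]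
    · intro h
      exact absurd (mem_range.mpr hs) h

theorem flo_E_mul {n : ℕ} (p s : ℕ) (D : Dr n) (t : ZMod (p ^ s)) (x : Fin n → ZMod (p ^ s))
    (hp : p.Prime) (hs : s ≤ p) (ht : Nl p s t) (f g : Pl n) :
    floE p s D t x (f * g) = floE p s D t x f * floE p s D t x g := by
  have ht0 : ∀ m, s ≤ m → t ^ m = 0 := by
    intro m hm
    obtain ⟨t', rfl⟩ := ht
    have h : (p : ZMod (p ^ s)) ^ s = 0 := by
      rw [← Nat.cast_pow]
      exact ZMod.natCast_self (p ^ s)
    rw [mul_pow, pow_eq_zero_of_le hm h, zero_mul]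
  have h1 : floE p s D t x f * floE p s D t x g = ∑ i ∈ range s, ∑ j ∈ range s,
      (t ^ (i + j) * (iv p s i * iv p s j)) * (aeval x ((fun g => D g)^[i] f) *
        aeval x ((fun g => D g)^[j] g)) := by
    unfold floE
    rw [Finset.sum_mul_sum]
    refine Finset.sum_congr rfl fun i _ => Finset.sum_congr rfl fun j _ => ?_
    rw [pow_add]
    ring
  rw [h1, flo_sq s (fun i j => (t ^ (i + j) * (iv p s i * iv p s j)) *
    (aeval x ((fun g => D g)^[i] f) * aeval x ((fun g => D g)^[j] g)))]
  · unfold floE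
    refine Finset.sum_congr rfl fun m hm => ?_
    rw [flo_leib, map_sum, Finset.mul_sum]
    refine Finset.sum_congr rfl fun ij hij => ?_
    have hij' := HasAntidiagonal.mem_antidiagonal.mp hij
    have h2 := flo_choose p s ij.1 ij.2 hp hs (by rw [hij']; exact mem_range.mp hm)
    rw [hij'] at h2
    rw [← h2, hij', map_nsmul, map_mul, nsmul_eq_mul]
    ring
  · intro i j hij
    rw [ht0 _ hij, zero_mul, zero_mul]

theorem pf_FLO : T_FLO := by
  intro n p s D t x f hp hs ht
  change aeval (fl p s D t x) f = floE p s D t x f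
  induction f using MvPolynomial.induction_on with
  | C a =>
    rw [flo_E_C]
    simp
  | add f g hf hg => rw [map_add, hf, hg, flo_E_add]
  | mul_X f v hf =>
    rw [map_mul, hf, flo_E_mul p s D t x hp hs ht, aeval_X]
    rfl

end Pool.Agent.H27.TFX
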