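import Pool.Agent.H29.FX.Targets

/-!
Row HSB of tfx_modules: polynomials with a unit as linear coefficient permute the multiples of `p`.
-/

set_option autoImplicit false

open Finset MvPolynomial

namespace Pool.Agent.H27.TFX

open Pool.Agent.H29.FX

theorem hsb_nil (p s : ℕ) : IsNilpotent (p : ZMod (p ^ s)) := by
  refine ⟨s, ?_⟩
  rw [← Nat.cast_pow]
  exact ZMod.natCast_self (p ^ s)

theorem hsb_unit (p s : ℕ) (hs : 2 ≤ s) (c : ℕ → ZMod (p ^ s)) (hc : IsUnit (c 1))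
    (t t' : ZMod (p ^ s)) (ht : (p : ZMod (p ^ s)) ∣ t) (ht' : (p : ZMod (p ^ s)) ∣ t') :
    ∃ w, IsUnit w ∧ (∑ m ∈ Ico 1 s, t ^ m * c m) - (∑ m ∈ Ico 1 s, t' ^ m * c m) =
      (t - t') * w := by
  have hg : ∀ m ∈ Ico 2 s, ∃ h : ZMod (p ^ s), t ^ m - t' ^ m = (t - t') * ((p : ZMod (p ^ s)) * h) := by
    intro m hm
    have hm2 := (mem_Ico.mp hm).1
    have h1 : (p : ZMod (p ^ s)) ∣ ∑ i ∈ range m, t ^ i * t' ^ (m - 1 - i) := by
      refine dvd_sum fun i hi => ?_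
      rcases Nat.eq_zero_or_pos i with h0 | h0
      · subst h0
        exact Dvd.dvd.mul_left (dvd_pow ht' (by omega)) _
      · exact Dvd.dvd.mul_right (dvd_pow ht (by omega)) _
    obtain ⟨h, hh⟩ := h1
    refine ⟨h, ?_⟩
    rw [← hh]
    exact ((Commute.all t t').mul_geom_sum₂ m).symm
  choose! h hh using hg
  refine ⟨c 1 + (p : ZMod (p ^ s)) * ∑ m ∈ Ico 2 s, h m * c m, ?_, ?_⟩
  · refine IsNilpotent.isUnit_add_left_of_commute ?_ hc (Commute.all _ _)
    exact (Commute.all _ _).isNilpotent_mul_right (hsb_nil p s)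
  · rw [Finset.sum_eq_sum_Ico_succ_bot (by omega : 1 < s),
      Finset.sum_eq_sum_Ico_succ_bot (by omega : 1 < s)]
    have h2 : (∑ m ∈ Ico 2 s, t ^ m * c m) - (∑ m ∈ Ico 2 s, t' ^ m * c m) =
        (t - t') * ((p : ZMod (p ^ s)) * ∑ m ∈ Ico 2 s, h m * c m) := by
      rw [← Finset.sum_sub_distrib, Finset.mul_sum, Finset.mul_sum]
      refine Finset.sum_congr rfl fun m hm => ?_
      rw [← sub_mul, hh m hm]
      ring
    have e : (1 : ℕ) + 1 = 2 := rfl
    rw [e]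
    linear_combination h2

theorem pf_HSB : T_HSB := by
  intro p s c hp hc
  have hN : ∀ t, Nl p s t ↔ (p : ZMod (p ^ s)) ∣ t := fun t => Iff.rfl
  simp only [hN]
  rcases Nat.lt_or_ge s 2 with hs | hs
  · have h0 : (p : ZMod (p ^ s)) = 0 := by
      rw [ZMod.natCast_eq_zero_iff]
      exact (pow_dvd_pow p (by omega : s ≤ 1)).trans (by rw [pow_one])
    have h1 : Ico 1 s = ∅ := by
      rw [Finset.Ico_eq_empty_iff]
      omega
    simp only [h0, zero_dvd_iff, h1, sum_empty]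
    refine ⟨?_, ?_⟩
    · rintro y rfl
      exact ⟨0, rfl, rfl⟩
    · rintro t rfl _
      rfl
  · have : NeZero (p ^ s) := ⟨pow_ne_zero _ hp.ne_zero⟩
    have hinj : ∀ t t' : ZMod (p ^ s), (p : ZMod (p ^ s)) ∣ t → (p : ZMod (p ^ s)) ∣ t' →
        ∑ m ∈ Ico 1 s, t ^ m * c m = ∑ m ∈ Ico 1 s, t' ^ m * c m → t = t' := by
      intro t t' ht ht' he
      obtain ⟨w, hw, h⟩ := hsb_unit p s hs c hc t t' ht ht'
      rw [he, sub_self] at h
      have h2 : t - t' = 0 := by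
        have h3 := h.symm
        rwa [hw.mul_left_eq_zero] at h3
      exact sub_eq_zero.mp h2
    have hmap : ∀ t : ZMod (p ^ s), (p : ZMod (p ^ s)) ∣ t →
        (p : ZMod (p ^ s)) ∣ ∑ m ∈ Ico 1 s, t ^ m * c m := by
      intro t ht
      refine dvd_sum fun m hm => ?_
      have := (mem_Ico.mp hm).1
      exact Dvd.dvd.mul_right (dvd_pow ht (by omega)) _
    let Φ : {t : ZMod (p ^ s) // (p : ZMod (p ^ s)) ∣ t} →
        {t : ZMod (p ^ s) // (p : ZMod (p ^ s)) ∣ t} :=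
      fun t => ⟨∑ m ∈ Ico 1 s, t.1 ^ m * c m, hmap t.1 t.2⟩
    have hΦ : Function.Injective Φ := by
      intro a b hab
      have h := congrArg Subtype.val hab
      exact Subtype.ext (hinj a.1 b.1 a.2 b.2 h)
    have hS := Finite.injective_iff_surjective.mp hΦ
    refine ⟨?_, ?_⟩
    · intro y hy
      obtain ⟨t, ht⟩ := hS ⟨y, hy⟩
      exact ⟨t.1, t.2, congrArg Subtype.val ht⟩
    · intro t ht h
      refine hinj t 0 ht (dvd_zero _) ?_
      rw [h]
      symm
      refine Finset.sum_eq_zero fun m hm => ?_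
      have := (mem_Ico.mp hm).1
      rw [zero_pow (by omega), zero_mul]

end Pool.Agent.H27.TFX
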